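import Mathlib
import Pool.Agent.Helper26.HI.Defs

/-!
# HI: blocks HC6 and HC6'. The size of the roots and of the determinant
-/

set_option autoImplicit false

namespace Pool.Agent.Helper26.HI

open MvPolynomial

noncomputable section

/-- the size of the values of a polynomial -/
theorem eval_le32 {r : ℕ} (c : MvPolynomial (Fin r) ℤ) : ∃ C d : ℕ, ∀ N : ℕ, 1 ≤ N →
    ∀ t : Fin r → ℤ, (∀ k, |t k| ≤ N) → |eval t c| ≤ C * (N : ℤ) ^ d := by
  induction c using MvPolynomial.induction_on with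
  | C a =>
    refine ⟨a.natAbs, 0, fun N _ t _ => ?_⟩
    rw [eval_C, pow_zero, mul_one, Int.natCast_natAbs]
  | add p q hp hq =>
    obtain ⟨C₁, d₁, h₁⟩ := hp
    obtain ⟨C₂, d₂, h₂⟩ := hq
    refine ⟨C₁ + C₂, max d₁ d₂, fun N hN t ht => ?_⟩
    have hN' : (1 : ℤ) ≤ N := by exact_mod_cast hN
    have e₁ : (N : ℤ) ^ d₁ ≤ (N : ℤ) ^ max d₁ d₂ := pow_le_pow_right₀ hN' (le_max_left _ _)
    have e₂ : (N : ℤ) ^ d₂ ≤ (N : ℤ) ^ max d₁ d₂ := pow_le_pow_right₀ hN' (le_max_right _ _)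
    rw [map_add]
    calc |eval t p + eval t q| ≤ |eval t p| + |eval t q| := abs_add_le _ _
      _ ≤ C₁ * (N : ℤ) ^ d₁ + C₂ * (N : ℤ) ^ d₂ := add_le_add (h₁ N hN t ht) (h₂ N hN t ht)
      _ ≤ C₁ * (N : ℤ) ^ max d₁ d₂ + C₂ * (N : ℤ) ^ max d₁ d₂ :=
          add_le_add (mul_le_mul_of_nonneg_left e₁ (by positivity)) (mul_le_mul_of_nonneg_left e₂ (by positivity))
      _ = ((C₁ + C₂ : ℕ) : ℤ) * (N : ℤ) ^ max d₁ d₂ := by push_cast; ring
  | mul_X p k hp =>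
    obtain ⟨C₁, d₁, h₁⟩ := hp
    refine ⟨C₁, d₁ + 1, fun N hN t ht => ?_⟩
    rw [map_mul, eval_X, abs_mul, pow_succ, ← mul_assoc]
    exact mul_le_mul (h₁ N hN t ht) (ht k) (abs_nonneg _) (by positivity)

/-- the same for finitely many polynomials -/
theorem eval_le_all32 {r : ℕ} (c : ℕ → MvPolynomial (Fin r) ℤ) (n : ℕ) : ∃ C d : ℕ, ∀ N : ℕ, 1 ≤ N →
    ∀ t : Fin r → ℤ, (∀ k, |t k| ≤ N) → ∀ i < n, |eval t (c i)| ≤ C * (N : ℤ) ^ d := by
  induction n with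
  | zero => exact ⟨0, 0, fun _ _ _ _ i hi => absurd hi (Nat.not_lt_zero _)⟩
  | succ n ih =>
    obtain ⟨C₁, d₁, h₁⟩ := ih
    obtain ⟨C₂, d₂, h₂⟩ := eval_le32 (c n)
    refine ⟨C₁ + C₂, max d₁ d₂, fun N hN t ht i hi => ?_⟩
    have hN' : (1 : ℤ) ≤ N := by exact_mod_cast hN
    have e₁ : (N : ℤ) ^ d₁ ≤ (N : ℤ) ^ max d₁ d₂ := pow_le_pow_right₀ hN' (le_max_left _ _)
    have e₂ : (N : ℤ) ^ d₂ ≤ (N : ℤ) ^ max d₁ d₂ := pow_le_pow_right₀ hN' (le_max_right _ _)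
    have hC₁ : (0 : ℤ) ≤ C₁ := by positivity
    have hC₂ : (0 : ℤ) ≤ C₂ := by positivity
    have hp₁ : (0 : ℤ) ≤ (N : ℤ) ^ d₁ := by positivity
    have hp : (0 : ℤ) ≤ (N : ℤ) ^ max d₁ d₂ := by positivity
    rcases Nat.lt_succ_iff_lt_or_eq.1 hi with h | h
    · refine (h₁ N hN t ht i h).trans ?_
      push_cast
      calc (C₁ : ℤ) * (N : ℤ) ^ d₁ ≤ C₁ * (N : ℤ) ^ max d₁ d₂ := mul_le_mul_of_nonneg_left e₁ hC₁
        _ ≤ (C₁ + C₂) * (N : ℤ) ^ max d₁ d₂ := mul_le_mul_of_nonneg_right (by linarith) hp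
    · subst h
      refine (h₂ N hN t ht).trans ?_
      push_cast
      calc (C₂ : ℤ) * (N : ℤ) ^ d₂ ≤ C₂ * (N : ℤ) ^ max d₁ d₂ := mul_le_mul_of_nonneg_left e₂ hC₂
        _ ≤ (C₁ + C₂) * (N : ℤ) ^ max d₁ d₂ := mul_le_mul_of_nonneg_right (by linarith) hp

/-- **HC6**: the size of the roots -/
theorem root_le {r : ℕ} (P : Polynomial (MvPolynomial (Fin r) ℤ)) (hPm : P.Monic) : ∃ κ₀ B : ℕ, ∀ N : ℕ, 1 ≤ N →
    ∀ (t : Fin r → ℤ) (x : ℤ), (∀ k, |t k| ≤ N) → V P t x = 0 → |x| ≤ B * (N : ℤ) ^ κ₀ := by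
  obtain ⟨C, d, h⟩ := eval_le_all32 P.coeff P.natDegree
  refine ⟨d, P.natDegree * C, fun N hN t x ht hV => ?_⟩
  rcases eq_or_ne x 0 with rfl | hx
  · rw [abs_zero]
    positivity
  have hx1 : 1 ≤ |x| := Int.one_le_abs hx
  -- the degree is positive
  have hM : (P.map (eval t)).Monic := hPm.map _
  have hdeg : (P.map (eval t)).natDegree = P.natDegree := hPm.natDegree_map _
  have hn : 1 ≤ P.natDegree := by
    by_contra hn
    have h0 : P.natDegree = 0 := by omega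
    have h1 : P = 1 := hPm.natDegree_eq_zero.1 h0
    rw [h1] at hV
    simp [V] at hV
  -- the equation
  have hV' : (P.map (eval t)).eval x = 0 := hV
  rw [Polynomial.eval_eq_sum_range, hdeg, Finset.sum_range_succ] at hV'
  have hlead : (P.map (eval t)).coeff P.natDegree = 1 := by
    rw [Polynomial.coeff_map, Polynomial.Monic.coeff_natDegree hPm, map_one]
  rw [hlead, one_mul] at hV'
  have h1 : x ^ P.natDegree = -∑ i ∈ Finset.range P.natDegree, (P.map (eval t)).coeff i * x ^ i := by linarith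
  obtain ⟨n, hn'⟩ : ∃ n, P.natDegree = n + 1 := ⟨P.natDegree - 1, by omega⟩
  have h2 : |x| ^ P.natDegree ≤ ∑ i ∈ Finset.range P.natDegree, (C * (N : ℤ) ^ d) * |x| ^ n := by
    rw [← abs_pow, h1, abs_neg]
    refine (Finset.abs_sum_le_sum_abs _ _).trans (Finset.sum_le_sum fun i hi => ?_)
    rw [Finset.mem_range] at hi
    rw [abs_mul, Polynomial.coeff_map, abs_pow]
    exact mul_le_mul (h N hN t ht i hi) (pow_le_pow_right₀ hx1 (by omega)) (by positivity) (by positivity)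
  rw [Finset.sum_const, Finset.card_range, nsmul_eq_mul] at h2
  have h3 : |x| ^ P.natDegree = |x| * |x| ^ n := by rw [hn', pow_succ, mul_comm]
  have h4 : |x| * |x| ^ n ≤ ((P.natDegree : ℤ) * (C * (N : ℤ) ^ d)) * |x| ^ n := by
    rw [← h3]
    refine h2.trans (le_of_eq ?_)
    ring
  have h5 := le_of_mul_le_mul_right h4 (by positivity)
  refine h5.trans (le_of_eq ?_)
  push_cast
  ring

/-- **HC6'**: the size of the determinant -/
theorem det_le {r : ℕ} {J : Type} [Fintype J] [DecidableEq J] (a : J → Fin r → ℕ) (b : J → ℕ) (κ₀ B N : ℕ)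
    (t : J → Fin r → ℤ) (x : J → ℤ) (ht : ∀ i k, |t i k| ≤ N) (hx : ∀ i, |x i| ≤ B * (N : ℤ) ^ κ₀) :
    |(Matrix.of fun i j => (∏ k, t i k ^ a j k) * x i ^ b j).det| ≤
      ((Fintype.card J).factorial * B ^ (∑ j, b j) : ℕ) * (N : ℤ) ^ (∑ j, ((∑ k, a j k) + κ₀ * b j)) := by
  have hent : ∀ i j, |(∏ k, t i k ^ a j k) * x i ^ b j| ≤ (B : ℤ) ^ b j * (N : ℤ) ^ ((∑ k, a j k) + κ₀ * b j) := by
    intro i j
    rw [abs_mul, Finset.abs_prod, abs_pow]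
    have h1 : ∏ k, |t i k ^ a j k| ≤ (N : ℤ) ^ (∑ k, a j k) := by
      rw [← Finset.prod_pow_eq_pow_sum]
      refine Finset.prod_le_prod (fun k _ => abs_nonneg _) (fun k _ => ?_)
      rw [abs_pow]
      exact pow_le_pow_left₀ (abs_nonneg _) (ht i k) _
    have h2 : |x i| ^ b j ≤ (B * (N : ℤ) ^ κ₀) ^ b j := pow_le_pow_left₀ (abs_nonneg _) (hx i) _
    calc (∏ k, |t i k ^ a j k|) * |x i| ^ b j ≤ (N : ℤ) ^ (∑ k, a j k) * (B * (N : ℤ) ^ κ₀) ^ b j :=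
          mul_le_mul h1 h2 (by positivity) (by positivity)
      _ = (B : ℤ) ^ b j * (N : ℤ) ^ ((∑ k, a j k) + κ₀ * b j) := by rw [mul_pow, pow_add, pow_mul]; ring
  rw [Matrix.det_apply]
  refine (Finset.abs_sum_le_sum_abs _ _).trans ?_
  have h3 : ∀ σ ∈ (Finset.univ : Finset (Equiv.Perm J)),
      |Equiv.Perm.sign σ • ∏ i, (Matrix.of fun i j => (∏ k, t i k ^ a j k) * x i ^ b j) (σ i) i| ≤
        (B : ℤ) ^ (∑ j, b j) * (N : ℤ) ^ (∑ j, ((∑ k, a j k) + κ₀ * b j)) := by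
    intro σ _
    have h4 : |Equiv.Perm.sign σ • ∏ i, (Matrix.of fun i j => (∏ k, t i k ^ a j k) * x i ^ b j) (σ i) i| =
        ∏ i, |(∏ k, t (σ i) k ^ a i k) * x (σ i) ^ b i| := by
      rw [Units.smul_def, smul_eq_mul, abs_mul, Finset.abs_prod]
      have : |((Equiv.Perm.sign σ : ℤˣ) : ℤ)| = 1 := by
        rcases Int.units_eq_one_or (Equiv.Perm.sign σ) with h | h <;> rw [h] <;> simp
      rw [this, one_mul]
      rfl
    rw [h4, ← Finset.prod_pow_eq_pow_sum, ← Finset.prod_pow_eq_pow_sum, ← Finset.prod_mul_distrib]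
    exact Finset.prod_le_prod (fun i _ => abs_nonneg _) (fun i _ => hent (σ i) i)
  refine (Finset.sum_le_card_nsmul _ _ _ h3).trans (le_of_eq ?_)
  rw [Finset.card_univ, Fintype.card_perm, nsmul_eq_mul]
  push_cast
  ring

end

end Pool.Agent.Helper26.HI
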